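import Pool.Agent.Helper48.WeissJ.Goals

/-! Parameters of one step. -/

set_option autoImplicit false

open Set Filter Topology

namespace Pool.Agent.Helper33.WeissJ

open Pool.Agent.Helper48.WeissJ

theorem tendsto_exp_mul {ε : ℝ} (hε : 0 < ε) :
    Tendsto (fun T : ℕ => Real.exp (ε * T)) atTop atTop :=
  Real.tendsto_exp_atTop.comp (tendsto_natCast_atTop_atTop.const_mul_atTop hε)

theorem num1 : NUM1 := by
  intro a L C ε ha hC hε
  have ha1 : (1 : ℝ) ≤ a := by exact_mod_cast ha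
  have ha0 : (0 : ℝ) < a := by linarith
  obtain ⟨m, hm⟩ := exists_nat_ge ((Real.log a + 1) / ε)
  rw [div_le_iff₀ hε] at hm
  have hlog : 0 ≤ Real.log a := Real.log_nonneg ha1
  have hm0 : 0 < m := by
    rcases Nat.eq_zero_or_pos m with h | h
    · exfalso
      rw [h, Nat.cast_zero, zero_mul] at hm
      linarith
    · exact h
  -- choice of H
  have hH : ∃ H : ℕ, 0 < H ∧ C * Real.exp (-(ε * H)) ≤ 1 / 4 := by
    obtain ⟨H, hH⟩ := ((tendsto_exp_mul hε).eventually_ge_atTop (4 * C)).exists_forall_of_atTop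
    refine ⟨max H 1, by omega, ?_⟩
    have h1 := hH (max H 1) (le_max_left _ _)
    rw [Real.exp_neg, ← div_eq_mul_inv, div_le_iff₀ (Real.exp_pos _)]
    linarith
  obtain ⟨H, hH0, hH1⟩ := hH
  have hlog2 : 0 ≤ Real.log (2 * a) := Real.log_nonneg (by linarith)
  refine ⟨m, H, 3 * Real.log (2 * a) + 1, hm0, hH0, by positivity, hH1, ?_⟩
  have t0 : Tendsto (fun T : ℕ => Real.exp (-(T : ℝ))) atTop (𝓝 0) :=
    Real.tendsto_exp_neg_atTop_nhds_zero.comp tendsto_natCast_atTop_atTop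
  have t1 : Tendsto (fun T : ℕ => (T : ℝ) ^ 1 * Real.exp (-(T : ℝ))) atTop (𝓝 0) :=
    (Real.tendsto_pow_mul_exp_neg_atTop_nhds_zero 1).comp tendsto_natCast_atTop_atTop
  have t2 : Tendsto (fun T : ℕ => (T : ℝ) ^ 2 * Real.exp (-(T : ℝ))) atTop (𝓝 0) :=
    (Real.tendsto_pow_mul_exp_neg_atTop_nhds_zero 2).comp tendsto_natCast_atTop_atTop
  have s1 : Tendsto (fun T : ℕ => (H * C * 2 ^ m) * ((T : ℝ) ^ 1 * Real.exp (-(T : ℝ)))) atTop
      (𝓝 ((H * C * 2 ^ m) * 0)) := t1.const_mul _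
  have s2 : Tendsto (fun T : ℕ => (H * C * (m + 1)) * ((T : ℝ) ^ 2 * Real.exp (-(T : ℝ))) +
      (H * C) * Real.exp (-(T : ℝ))) atTop (𝓝 ((H * C * (m + 1)) * 0 + (H * C) * 0)) :=
    (t2.const_mul _).add (t0.const_mul _)
  rw [mul_zero] at s1
  rw [mul_zero, mul_zero, add_zero] at s2
  filter_upwards [(tendsto_exp_mul hε).eventually_ge_atTop 2,
    s1.eventually (ge_mem_nhds (by norm_num : (0 : ℝ) < 1 / 4)),
    s2.eventually (ge_mem_nhds (by norm_num : (0 : ℝ) < 1 / 4))] with T h1 h2 h3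
  refine ⟨h1, ?_, ?_⟩
  · refine le_trans ?_ h2
    have e1 : (a : ℝ) ^ T = Real.exp (T * Real.log a) := by
      rw [Real.exp_nat_mul, Real.exp_log ha0]
    have e2 : (2 * Real.exp (-(ε * T))) ^ m = 2 ^ m * Real.exp (-(m * (ε * T))) := by
      rw [mul_pow, ← Real.exp_nat_mul]
      congr 2
      ring
    have e3 : Real.exp (T * Real.log a) * Real.exp (-(m * (ε * T))) ≤ Real.exp (-(T : ℝ)) := by
      rw [← Real.exp_add]
      refine Real.exp_le_exp.2 ?_
      have hT : (0 : ℝ) ≤ T := Nat.cast_nonneg T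
      nlinarith [mul_le_mul_of_nonneg_left hm hT]
    rw [e1, e2, pow_one]
    calc (H : ℝ) * T * C * Real.exp (T * Real.log a) * (2 ^ m * Real.exp (-(m * (ε * T))))
        = (H * T * C * 2 ^ m) * (Real.exp (T * Real.log a) * Real.exp (-(m * (ε * T)))) := by ring
      _ ≤ (H * T * C * 2 ^ m) * Real.exp (-(T : ℝ)) :=
        mul_le_mul_of_nonneg_left e3 (by positivity)
      _ = _ := by ring
  · refine le_trans ?_ h3
    have hab : (0 : ℝ) < 2 * a := by linarith
    have hab1 : (1 : ℝ) ≤ 2 * a := by linarith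
    have e1 : (a : ℝ) ^ (2 * T) ≤ (2 * a) ^ (2 * (T + L)) :=
      (pow_le_pow_left₀ ha0.le (by linarith) _).trans (pow_le_pow_right₀ hab1 (by omega))
    have e2 : (2 * a : ℝ) ^ (2 * (T + L)) * (2 * a) ^ (T + L) =
        Real.exp (((3 * (T + L) : ℕ) : ℝ) * Real.log (2 * a)) := by
      rw [Real.exp_nat_mul, Real.exp_log hab, ← pow_add]
      congr 1
      ring
    have e3 : (a : ℝ) ^ (2 * T) * (2 * a) ^ (T + L) *
        Real.exp (-((3 * Real.log (2 * a) + 1) * (T + L : ℕ))) ≤ Real.exp (-(T : ℝ)) := by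
      calc (a : ℝ) ^ (2 * T) * (2 * a) ^ (T + L) *
          Real.exp (-((3 * Real.log (2 * a) + 1) * (T + L : ℕ)))
          ≤ (2 * a : ℝ) ^ (2 * (T + L)) * (2 * a) ^ (T + L) *
            Real.exp (-((3 * Real.log (2 * a) + 1) * (T + L : ℕ))) := by
            refine mul_le_mul_of_nonneg_right (mul_le_mul_of_nonneg_right e1 (by positivity))
              (Real.exp_pos _).le
        _ = Real.exp (-((T + L : ℕ) : ℝ)) := by
            rw [e2, ← Real.exp_add]
            congr 1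
            push_cast
            ring
        _ ≤ _ := by
            refine Real.exp_le_exp.2 ?_
            push_cast
            have : (0 : ℝ) ≤ L := Nat.cast_nonneg L
            linarith
    calc (H : ℝ) * (T * ((m + 1) * T) + 1) * C * (a : ℝ) ^ (2 * T) * (2 * (a : ℝ)) ^ (T + L) *
        Real.exp (-((3 * Real.log (2 * a) + 1) * (T + L : ℕ)))
        = (H * (T * ((m + 1) * T) + 1) * C) * ((a : ℝ) ^ (2 * T) * (2 * a) ^ (T + L) *
        Real.exp (-((3 * Real.log (2 * a) + 1) * (T + L : ℕ)))) := by ring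
      _ ≤ (H * (T * ((m + 1) * T) + 1) * C) * Real.exp (-(T : ℝ)) :=
        mul_le_mul_of_nonneg_left e3 (by positivity)
      _ = _ := by ring

theorem num2 : NUM2 := by
  intro a L ε γ r ha hε hγ
  filter_upwards [(tendsto_exp_mul hε).eventually_ge_atTop ((a : ℝ) ^ L + 2)] with T hT
  have hT0 : (0 : ℝ) ≤ T := Nat.cast_nonneg T
  have h1 : Real.exp (γ * T) ≤ Real.exp ((r + ε) * T) :=
    Real.exp_le_exp.2 (mul_le_mul_of_nonneg_right (by linarith) hT0)
  have h2 : Real.exp ((r + 2 * ε) * T) = Real.exp (ε * T) * Real.exp ((r + ε) * T) := by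
    rw [← Real.exp_add]
    congr 1
    ring
  rw [h2]
  calc (a : ℝ) ^ L * Real.exp ((r + ε) * T) + 2 * Real.exp (γ * T)
      ≤ (a : ℝ) ^ L * Real.exp ((r + ε) * T) + 2 * Real.exp ((r + ε) * T) := by linarith
    _ = ((a : ℝ) ^ L + 2) * Real.exp ((r + ε) * T) := by ring
    _ ≤ _ := mul_le_mul_of_nonneg_right hT (Real.exp_pos _).le

end Pool.Agent.Helper33.WeissJ
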